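import Pool.Agent.Work.MP_f2148a_nt.As.Full

set_option autoImplicit false

namespace Pool.Agent.Results.MP_f2148a_nt.AsymptoticCount

open MeasureTheory Pool.Agent.Work.MP_f2148a_nt

theorem result : ∃ c : ℝ, 0 < c ∧ c = (volume {p : ℝ × ℝ | |p.2 ^ 2 - p.1 ^ 3| ≤ 1}).toReal ∧
    ∃ δ : ℝ, 0 < δ ∧ ∃ A : ℝ, ∀ K : ℝ, 1 ≤ K →
      {t : ℤ × ℤ | t.2 ^ 2 ≠ t.1 ^ 3 ∧ |(t.2 : ℝ) ^ 2 - (t.1 : ℝ) ^ 3| ≤ K}.Finite ∧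
      |({t : ℤ × ℤ | t.2 ^ 2 ≠ t.1 ^ 3 ∧ |(t.2 : ℝ) ^ 2 - (t.1 : ℝ) ^ 3| ≤ K}.ncard : ℝ)
        - c * K ^ (5 / 6 : ℝ)| ≤ A * K ^ (5 / 6 - δ) := by
  obtain ⟨δ, hδ, A, h⟩ := As.full As.primGiants 1 one_pos
  exact ⟨As.c0, As.c0_pos, rfl, δ, hδ, A, fun K hK => ⟨(h K hK).1, (h K hK).2.1⟩⟩

end Pool.Agent.Results.MP_f2148a_nt.AsymptoticCount
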