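import Pool.Agent.Work.MP_f2148a_nt.As.Bridge
import Pool.Agent.Work.MP_f2148a_nt.BM.Final

set_option autoImplicit false

namespace Pool.Agent.Results.MP_f2148a_nt.EllipticCurvesByDiscriminant

open MeasureTheory WeierstrassCurve Pool.Agent.Work.MP_f2148a_nt

theorem result :
    ∃ δ : ℝ, 0 < δ ∧
    -- Hall's inequality for all but few elliptic curves
    (∀ C : ℝ, 0 < C → ∃ A : ℝ, ∀ X : ℝ, 1 ≤ X →
      {e : MulAction.orbitRel.Quotient (VariableChange ℚ) (WeierstrassCurve ℚ) |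
        ∃ W : WeierstrassCurve ℤ, W.Δ ≠ 0 ∧ |(W.Δ : ℝ)| ≤ X ∧
          C * |1728 * (W.Δ : ℝ)| ^ 3 < max |(W.c₄ : ℝ)| |(W.c₆ : ℝ)| ∧
          e = Quotient.mk'' (W.map (Int.castRingHom ℚ))}.Finite ∧
      ({e : MulAction.orbitRel.Quotient (VariableChange ℚ) (WeierstrassCurve ℚ) |
        ∃ W : WeierstrassCurve ℤ, W.Δ ≠ 0 ∧ |(W.Δ : ℝ)| ≤ X ∧
          C * |1728 * (W.Δ : ℝ)| ^ 3 < max |(W.c₄ : ℝ)| |(W.c₆ : ℝ)| ∧
          e = Quotient.mk'' (W.map (Int.castRingHom ℚ))}.ncard : ℝ) ≤ A * X ^ (5 / 6 - δ)) ∧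
    ∃ cp cm : ℝ, 0 < cp ∧ 0 < cm ∧
    cp = (volume {p : ℝ × ℝ | 0 ≤ p.2 ^ 2 - p.1 ^ 3 ∧ p.2 ^ 2 - p.1 ^ 3 ≤ 1}).toReal ∧
    cm = (volume {p : ℝ × ℝ | 0 ≤ p.1 ^ 3 - p.2 ^ 2 ∧ p.1 ^ 3 - p.2 ^ 2 ≤ 1}).toReal ∧
    ∃ A : ℝ, ∀ X : ℝ, 1 ≤ X →
    -- the invariant `c₆` of the equations with `|Δ| ≤ X`
      (∀ T : ℝ, 1 ≤ T →
        {e : MulAction.orbitRel.Quotient (VariableChange ℚ) (WeierstrassCurve ℚ) |
          ∃ W : WeierstrassCurve ℤ, W.Δ ≠ 0 ∧ |(W.Δ : ℝ)| ≤ X ∧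
            T * |(W.Δ : ℝ)| ^ (1 / 2 : ℝ) < |(W.c₆ : ℝ)| ∧
            e = Quotient.mk'' (W.map (Int.castRingHom ℚ))}.Finite ∧
        ({e : MulAction.orbitRel.Quotient (VariableChange ℚ) (WeierstrassCurve ℚ) |
          ∃ W : WeierstrassCurve ℤ, W.Δ ≠ 0 ∧ |(W.Δ : ℝ)| ≤ X ∧
            T * |(W.Δ : ℝ)| ^ (1 / 2 : ℝ) < |(W.c₆ : ℝ)| ∧
            e = Quotient.mk'' (W.map (Int.castRingHom ℚ))}.ncard : ℝ) ≤
          A * (T ^ (-(1 / 3) : ℝ) * X ^ (5 / 6 : ℝ) + X ^ (5 / 6 - δ))) ∧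
    -- the elliptic curves over `ℚ` with minimal discriminant in `(0, X]`
      ({e : MulAction.orbitRel.Quotient (VariableChange ℚ) (WeierstrassCurve ℚ) |
          ∃ W : WeierstrassCurve ℤ, Quotient.mk'' (W.map (Int.castRingHom ℚ)) = e ∧
            (∀ W' : WeierstrassCurve ℤ, Quotient.mk'' (W'.map (Int.castRingHom ℚ)) = e →
              |W.Δ| ≤ |W'.Δ|) ∧ 0 < W.Δ ∧ (W.Δ : ℝ) ≤ X}.Finite ∧
        |({e : MulAction.orbitRel.Quotient (VariableChange ℚ) (WeierstrassCurve ℚ) |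
          ∃ W : WeierstrassCurve ℤ, Quotient.mk'' (W.map (Int.castRingHom ℚ)) = e ∧
            (∀ W' : WeierstrassCurve ℤ, Quotient.mk'' (W'.map (Int.castRingHom ℚ)) = e →
              |W.Δ| ≤ |W'.Δ|) ∧ 0 < W.Δ ∧ (W.Δ : ℝ) ≤ X}.ncard : ℝ) -
          √3 / 12 * cm / (∑' n : ℕ, 1 / ((n : ℝ) + 1) ^ 10) * X ^ (5 / 6 : ℝ)|
          ≤ A * X ^ (5 / 6 - δ)) ∧
    -- the elliptic curves over `ℚ` with minimal discriminant in `[-X, 0)`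
      {e : MulAction.orbitRel.Quotient (VariableChange ℚ) (WeierstrassCurve ℚ) |
          ∃ W : WeierstrassCurve ℤ, Quotient.mk'' (W.map (Int.castRingHom ℚ)) = e ∧
            (∀ W' : WeierstrassCurve ℤ, Quotient.mk'' (W'.map (Int.castRingHom ℚ)) = e →
              |W.Δ| ≤ |W'.Δ|) ∧ W.Δ < 0 ∧ -X ≤ (W.Δ : ℝ)}.Finite ∧
        |({e : MulAction.orbitRel.Quotient (VariableChange ℚ) (WeierstrassCurve ℚ) |
          ∃ W : WeierstrassCurve ℤ, Quotient.mk'' (W.map (Int.castRingHom ℚ)) = e ∧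
            (∀ W' : WeierstrassCurve ℤ, Quotient.mk'' (W'.map (Int.castRingHom ℚ)) = e →
              |W.Δ| ≤ |W'.Δ|) ∧ W.Δ < 0 ∧ -X ≤ (W.Δ : ℝ)}.ncard : ℝ) -
          √3 / 12 * cp / (∑' n : ℕ, 1 / ((n : ℝ) + 1) ^ 10) * X ^ (5 / 6 : ℝ)|
          ≤ A * X ^ (5 / 6 - δ) := by
  obtain ⟨θ, h1, h2, hA⟩ := As.exists_asy As.primGiants
  exact BM.finalB hA h1 h2

end Pool.Agent.Results.MP_f2148a_nt.EllipticCurvesByDiscriminant
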