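import Pool.Agent.Work.MP_f2148a_nt.As.Full
import Pool.Agent.Work.MP_f2148a_nt.Law.Pow

set_option autoImplicit false

namespace Pool.Agent.Results.MP_f2148a_nt.HallAlmostAll

open MeasureTheory Pool.Agent.Work.MP_f2148a_nt

theorem result : ∃ c : ℝ, 0 < c ∧ c = (volume {p : ℝ × ℝ | |p.2 ^ 2 - p.1 ^ 3| ≤ 1}).toReal / 2 ∧
    ∃ Φ : ℝ → ℝ,
      (∀ T : ℝ, 1 ≤ T →
        Φ T = (volume {p : ℝ × ℝ | |p.2 ^ 2 - p.1 ^ 3| ≤ 1 ∧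
          T * |p.2 ^ 2 - p.1 ^ 3| ^ (1 / 2 : ℝ) < |p.2|}).toReal / 2 ∧
        T ^ (-(1 / 3) : ℝ) ≤ Φ T ∧ Φ T ≤ 8 * T ^ (-(1 / 3) : ℝ)) ∧
    ∃ δ : ℝ, 0 < δ ∧
      (∃ A : ℝ, ∀ K : ℝ, 1 ≤ K →
        |({k : ℤ | k ≠ 0 ∧ |(k : ℝ)| ≤ K ∧ ∃ x y : ℤ, y ^ 2 = x ^ 3 + k}.ncard : ℝ)
          - c * K ^ (5 / 6 : ℝ)| ≤ A * K ^ (5 / 6 - δ) ∧
        ({k : ℤ | k ≠ 0 ∧ |(k : ℝ)| ≤ K ∧
            ∃ x y x' y' : ℤ, y ^ 2 = x ^ 3 + k ∧ y' ^ 2 = x' ^ 3 + k ∧ x' ≠ x}.ncard : ℝ)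
          ≤ A * K ^ (5 / 6 - δ) ∧
        ∀ T : ℝ, 1 ≤ T →
          |({k : ℤ | k ≠ 0 ∧ |(k : ℝ)| ≤ K ∧ ∃ x y : ℤ, y ^ 2 = x ^ 3 + k ∧
              T * |(k : ℝ)| ^ (1 / 2 : ℝ) < max |(x : ℝ)| |(y : ℝ)|}.ncard : ℝ)
            - Φ T * K ^ (5 / 6 : ℝ)| ≤ A * K ^ (5 / 6 - δ)) ∧
      ∀ κ C : ℝ, 1 / 2 < κ → 0 < C → ∃ A : ℝ, ∀ K : ℝ, 1 ≤ K →
        ({k : ℤ | k ≠ 0 ∧ |(k : ℝ)| ≤ K ∧ ∃ x y : ℤ, y ^ 2 = x ^ 3 + k ∧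
            C * |(k : ℝ)| ^ κ < max |(x : ℝ)| |(y : ℝ)|}.ncard : ℝ)
          ≤ A * (K ^ (1 - κ / 3) + K ^ (5 / 6 - δ)) := by
  refine ⟨As.c0 / 2, half_pos As.c0_pos, rfl, Law.Phi,
    fun T hT => ⟨rfl, Law.Phi_ge hT, Law.Phi_le hT⟩, ?_⟩
  obtain ⟨θ, h1, h2, hA⟩ := As.exists_asy As.primGiants
  obtain ⟨A₁, H1⟩ := As.cnt hA h1
  obtain ⟨A₂, H2⟩ := As.card_two hA h1
  obtain ⟨A₃, hA₃, H3⟩ := Law.bigT_law hA h1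
  have e : (5 / 6 : ℝ) - (5 / 6 - θ) = θ := by ring
  refine ⟨5 / 6 - θ, by linarith, ⟨|A₁| + |A₂| + A₃, fun K hK => ?_⟩, fun κ C hκ hC => ?_⟩
  · have hK0 : (0 : ℝ) < K := by linarith
    rw [e]
    have p0 : 0 ≤ K ^ θ := Real.rpow_nonneg hK0.le _
    have k1 : A₁ * K ^ θ ≤ |A₁| * K ^ θ := mul_le_mul_of_nonneg_right (le_abs_self _) p0
    have k2 : A₂ * K ^ θ ≤ |A₂| * K ^ θ := mul_le_mul_of_nonneg_right (le_abs_self _) p0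
    have n1 : 0 ≤ |A₁| * K ^ θ := by positivity
    have n2 : 0 ≤ |A₂| * K ^ θ := by positivity
    have n3 : 0 ≤ A₃ * K ^ θ := by positivity
    have e1 : (|A₁| + |A₂| + A₃) * K ^ θ = |A₁| * K ^ θ + |A₂| * K ^ θ + A₃ * K ^ θ := by ring
    refine ⟨(H1 K hK).2.trans (by rw [e1]; linarith), (H2 K hK).2.trans (by rw [e1]; linarith),
      fun T hT => (H3 K hK T hT).2.trans (by rw [e1]; linarith)⟩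
  · rw [e]
    exact Law.V_law hA h1 hκ hC

end Pool.Agent.Results.MP_f2148a_nt.HallAlmostAll
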