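import Pool.Agent.Work.MP_f2148a_nt.As.Bridge
import Pool.Agent.Work.MP_f2148a_nt.MC.SBr

set_option autoImplicit false

namespace Pool.Agent.Results.MP_f2148a_nt.MonogenicCubicFields

open Pool.Agent.Work.MP_f2148a_nt Pool.Agent.Work.MP_f2148a_nt.MC

theorem result : ∃ δ : ℝ, 0 < δ ∧
    -- Hall's inequality for the generators of all but few of the monogenic cubic fields
    (∀ B : ℝ, 0 < B → ∃ A : ℝ, ∀ x : ℝ, 1 ≤ x →
      (HallBad B x).Finite ∧ ((HallBad B x).ncard : ℝ) ≤ A * x ^ (5 / 6 - δ)) ∧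
    -- all but few of them have one generator, up to sign, translation by integers and conjugation
    (∃ A : ℝ, ∀ x : ℝ, 1 ≤ x → (TwoGen x).Finite ∧ ((TwoGen x).ncard : ℝ) ≤ A * x ^ (5 / 6 - δ)) ∧
    -- the number of the monogenic cubic fields, up to isomorphism
    (∃ A : ℝ, ∀ σ : ℝ, σ = 1 ∨ σ = -1 → ∀ x : ℝ, 1 ≤ x → (MonoC σ x).Finite ∧ 0 < area (-σ) ∧
      |((MonoC σ x).ncard : ℝ) - √3 / (2 ^ (2 / 3 : ℝ) * Real.pi ^ 2) * area (-σ) * x ^ (5 / 6 : ℝ)| ≤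
        A * x ^ (5 / 6 - δ)) := by
  obtain ⟨θ, h1, h2, hA⟩ := As.exists_asy As.primGiants
  obtain ⟨δ, hδ, ha, hb, cp, cm, hcp, hcm, hcpe, hcme, A, h⟩ := MC.final hA h1 h2
  refine ⟨δ, hδ, fun B hB => ?_, ?_, A, ?_⟩
  · obtain ⟨A', hA'⟩ := ha B hB
    refine ⟨A', fun x hx => ?_⟩
    rw [hallBad_eq]
    exact hA' x hx
  · obtain ⟨A', hA'⟩ := hb
    refine ⟨A', fun x hx => ?_⟩
    rw [twoGen_eq]
    exact hA' x hx
  have e1 : area (-1) = cp := by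
    rw [hcpe]
    simp only [area, neg_mul, one_mul, neg_sub]
  have e2 : area 1 = cm := by
    rw [hcme]
    simp only [area, one_mul]
  rintro σ (rfl | rfl) x hx
  · obtain ⟨h3, -⟩ := h x hx
    rw [← mono_one] at h3
    rw [e1, monoC_eq]
    exact ⟨h3.1, hcp, h3.2⟩
  · obtain ⟨-, h3⟩ := h x hx
    rw [← mono_neg_one] at h3
    rw [neg_neg, e2, monoC_eq]
    exact ⟨h3.1, hcm, h3.2⟩

end Pool.Agent.Results.MP_f2148a_nt.MonogenicCubicFields
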